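import Pool.Agent.H89.FR.Sep

set_option autoImplicit false

/-!
# The radical of the second dual of the Fourier algebra has the largest possible dimension

The library module `RadicalBidual` of this problem finds one element `Φ ≠ 0` of the radical of
`A(G)''`, for every infinite locally compact group `G`. Here: the radical contains a linear subspace `N`
with `N □ A(G)'' □ N = 0` and of dimension at least `2 ^ (2 ^ ℵ₀)`, and this is the dimension of `N` (and an
upper bound for the dimension of every subspace of `A(G)''`) as soon as `A(G)` is separable, in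
particular for all second countable `G`.

Definitions used by the statement (all from the library):

* `N305.FA.coef ξ η`: the function `s ↦ ⟨λ(s) ξ, η⟩ = ∫ ξ(s⁻¹ x) conj(η(x)) dx`, left Haar measure;
* `N305.FA.FourierAlg G A`: the normed algebra `A` is the Fourier algebra `A(G)`: its elements are
  the functions `coef ξ η`, `ξ, η ∈ L²(G)`, with the norm `inf ‖ξ‖₂ ‖η‖₂` and pointwise operations;
* `H434R3.Arens.Bidual A`: the second dual `A''` with the first Arens product;
* `H434R3.Arens.InRad Φ`: `Φ` lies in the Jacobson radical (of the unitization).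

Idea. The library's gliding hump gives unit vectors `x_0, y_0, x_1, y_1, ...` and one operator of `VN(G)`
which separates the coefficients of all `x_l` from those of all `y_l`. Choosing the humps with errors which
tend to zero, and summing only the blocks with index in a set `S ⊆ ℕ`, we get a functional `F_S` for
every `S` at once, with `F_S (u_l - w_l) → 1` along `S` and `→ 0` off `S` (`u_l`, `w_l` the coefficients of
`x_l`, `y_l`). So the limits `Φ_U` of `u_l - w_l` along the nonprincipal ultrafilters `U` satisfy
`Φ_U (F_S) = 1` or `0` according to `S ∈ U` or not, are linearly independent, and all products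
`Φ_U □ Ψ □ Φ_V` vanish. There are `2 ^ (2 ^ ℵ₀)` nonprincipal ultrafilters (Pospíšil; proved in the file
`Card.lean`).
-/

open Cardinal H434R3.Arens N305.FA

namespace Pool.Agent.Results.MP_129c4a_an.HugeRadical

universe u v

/-- **The radical of `A(G)''` is huge.** Let `G` be an infinite locally compact (Hausdorff) group and
`A = A(G)` its Fourier algebra. The radical of `A(G)''` with the first Arens product is not zero; it
contains a linear subspace `N` with `Φ □ Ψ □ Φ' = 0` for all `Φ, Φ' ∈ N` and `Ψ ∈ A(G)''`, of dimension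
at least `2 ^ (2 ^ ℵ₀)`. If `A(G)` is separable, the dimension of `N` is `2 ^ (2 ^ ℵ₀)`, and no linear
subspace of `A(G)''` has larger dimension. If `G` is second countable, then `A(G)` is separable. -/
theorem result (G : Type u) [Group G] [TopologicalSpace G] [IsTopologicalGroup G]
    [LocallyCompactSpace G] [T2Space G] [MeasurableSpace G] [BorelSpace G] [Infinite G]
    (A : Type v) [NonUnitalNormedRing A] [NormedSpace ℂ A] [IsScalarTower ℂ A A]
    [SMulCommClass ℂ A A] [CompleteSpace A] (M : FourierAlg G A) :
    (∃ Φ : Bidual A, Φ ≠ 0 ∧ InRad Φ) ∧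
    ∃ N : Submodule ℂ (Bidual A), (∀ Φ ∈ N, InRad Φ) ∧
      (∀ Φ ∈ N, ∀ Φ' ∈ N, ∀ Ψ : Bidual A, Φ * Ψ * Φ' = 0) ∧
      (2 : Cardinal.{v}) ^ (2 : Cardinal.{v}) ^ (ℵ₀ : Cardinal.{v}) ≤ Module.rank ℂ N ∧
      (TopologicalSpace.SeparableSpace A →
        Module.rank ℂ N = (2 : Cardinal.{v}) ^ (2 : Cardinal.{v}) ^ (ℵ₀ : Cardinal.{v}) ∧
        ∀ N' : Submodule ℂ (Bidual A), Module.rank ℂ N' ≤ Module.rank ℂ N) ∧
      (SecondCountableTopology G → TopologicalSpace.SeparableSpace A) := by
  obtain ⟨Φ, hlin, hprod⟩ := Pool.Agent.H89.FR.huge G A M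
  obtain ⟨N, h1, h2, h3⟩ := Pool.Agent.H89.FR.span_of_family Φ hlin hprod
  refine ⟨?_, N, h1, h2, h3, fun hs => ?_, fun hG =>
    Pool.Agent.H89.FR.separable_of_secondCountable G A M⟩
  · have hpos : 0 < Module.rank ℂ N :=
      lt_of_lt_of_le (Cardinal.power_pos _ (by norm_num)) h3
    have hnt : Nontrivial N := rank_pos_iff_nontrivial.1 hpos
    obtain ⟨x, hx⟩ := exists_ne (0 : N)
    exact ⟨x, fun h => hx (Subtype.ext h), h1 x x.2⟩
  · have h4 := Pool.Agent.H89.FR.rank_le N
    exact ⟨le_antisymm h4 h3, fun N' => (Pool.Agent.H89.FR.rank_le N').trans h3⟩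

end Pool.Agent.Results.MP_129c4a_an.HugeRadical
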